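import Pool.Agent.helper69.AD.GS4

open scoped MatrixGroups LinearAlgebra.Projectivization
open Matrix UpperHalfPlane

namespace AdSBend

noncomputable section

open LeafSystem

theorem CLC_linked (hBD2 : BD2_stmt) (g : SL(2, ℝ)) (x y x' y' : Bd) :
    Linked (g • x) (g • y) (g • x') (g • y') ↔ Linked x y x' y' := by
  unfold Linked
  rw [hBD2, hBD2, hBD2, hBD2]

theorem CLC_closed {Γ : Subgroup SL(2, ℝ)} {x y : Bd} (h : IsClosedGeodesic Γ x y)
    {g : SL(2, ℝ)} (hg : g ∈ Γ) : IsClosedGeodesic Γ (g • x) (g • y) := by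
  obtain ⟨hxy, δ, hδ, h1, h2, h3, h4⟩ := h
  refine ⟨fun he => hxy ((MulAction.injective g) he), g * δ * g⁻¹,
    Γ.mul_mem (Γ.mul_mem hg hδ) (Γ.inv_mem hg), ?_, ?_, ?_, ?_⟩
  · intro he
    apply h1
    have : δ = g⁻¹ * (g * δ * g⁻¹) * g := by group
    rw [this, he]
    group
  · intro he
    apply h2
    have : δ = g⁻¹ * (g * δ * g⁻¹) * g := by group
    rw [this, he]
    simp
  · rw [smul_smul, inv_mul_cancel_right, mul_smul, h3]
  · rw [smul_smul, inv_mul_cancel_right, mul_smul, h4]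

theorem CLC_closed_sw {Γ : Subgroup SL(2, ℝ)} {x y : Bd} (h : IsClosedGeodesic Γ x y) :
    IsClosedGeodesic Γ y x := by
  obtain ⟨hxy, δ, hδ, h1, h2, h3, h4⟩ := h
  exact ⟨hxy.symm, δ, hδ, h1, h2, h4, h3⟩

/-- The orbit of a geodesic, with both orientations. -/
def CLC_orb (Γ : Subgroup SL(2, ℝ)) (p : Bd × Bd) : Set (Bd × Bd) :=
  {q | ∃ g ∈ Γ, q = ga g p ∨ q = ga g (sw p)}

theorem CLC_orb_linked (hBD2 : BD2_stmt) (hBD12 : BD12_stmt) {Γ : Subgroup SL(2, ℝ)}
    (S : LeafSystem Γ) {p : Bd × Bd} (hp : ∀ q ∈ S.L, ¬ Linked p.1 p.2 q.1 q.2)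
    {a q : Bd × Bd} (ha : a ∈ CLC_orb Γ p) (hq : q ∈ S.L) : ¬ Linked a.1 a.2 q.1 q.2 := by
  obtain ⟨g, hg, hag⟩ := ha
  have hq' : ga g⁻¹ q ∈ S.L := S.inv g⁻¹ (Γ.inv_mem hg) q hq
  have h1 : ¬ Linked (g • p.1) (g • p.2) q.1 q.2 := by
    intro h
    apply hp _ hq'
    have h2 := (CLC_linked hBD2 g⁻¹ (g • p.1) (g • p.2) q.1 q.2).mpr h
    rw [inv_smul_smul, inv_smul_smul] at h2
    exact h2
  rcases hag with e | e
  · rw [e]
    exact h1
  · rw [e]
    intro h
    exact h1 ((hBD12.2.2.2.2.2.2.2.2.2.2 (g • p.2) (g • p.1) q.1 q.2).mp h)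

theorem CLC_orb_orb (hBD2 : BD2_stmt) (hBD12 : BD12_stmt) {Γ : Subgroup SL(2, ℝ)}
    {p : Bd × Bd} (hp : ∀ γ ∈ Γ, ¬ Linked p.1 p.2 (γ • p.1) (γ • p.2))
    {a b : Bd × Bd} (ha : a ∈ CLC_orb Γ p) (hb : b ∈ CLC_orb Γ p) :
    ¬ Linked a.1 a.2 b.1 b.2 := by
  obtain ⟨g, hg, hag⟩ := ha
  obtain ⟨k, hk, hbk⟩ := hb
  have hs1 := hBD12.2.2.2.2.2.2.2.2.2.1
  have hs2 := hBD12.2.2.2.2.2.2.2.2.2.2
  have h1 : ¬ Linked (g • p.1) (g • p.2) (k • p.1) (k • p.2) := by
    intro h
    have h2 := (CLC_linked hBD2 g⁻¹ (g • p.1) (g • p.2) (k • p.1) (k • p.2)).mpr h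
    rw [inv_smul_smul, inv_smul_smul, smul_smul, smul_smul] at h2
    exact hp (g⁻¹ * k) (Γ.mul_mem (Γ.inv_mem hg) hk) h2
  have h2 : ¬ Linked (g • p.2) (g • p.1) (k • p.1) (k • p.2) := fun h => h1 ((hs2 _ _ _ _).mp h)
  have h3 : ¬ Linked (g • p.1) (g • p.2) (k • p.2) (k • p.1) := fun h =>
    h1 ((hs1 _ _ _ _).mp ((hs2 _ _ _ _).mp ((hs1 _ _ _ _).mp h)))
  have h4 : ¬ Linked (g • p.2) (g • p.1) (k • p.2) (k • p.1) := fun h =>
    h2 ((hs1 _ _ _ _).mp ((hs2 _ _ _ _).mp ((hs1 _ _ _ _).mp h)))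
  rcases hag with e | e <;> rcases hbk with e' | e' <;> rw [e, e']
  · exact h1
  · exact h3
  · exact h2
  · exact h4

/-- Adding a simple closed geodesic to a leaf system. -/
def CLC_add (hBD2 : BD2_stmt) (hBD12 : BD12_stmt) {Γ : Subgroup SL(2, ℝ)} (S : LeafSystem Γ)
    (p : Bd × Bd) (hs : IsSimpleClosedGeodesic Γ p.1 p.2)
    (hp : ∀ q ∈ S.L, ¬ Linked p.1 p.2 q.1 q.2) : LeafSystem Γ where
  L := S.L ∪ CLC_orb Γ p
  swap := by
    rintro q (hq | ⟨g, hg, hq⟩)
    · exact Or.inl (S.swap q hq)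
    · right
      refine ⟨g, hg, ?_⟩
      rcases hq with e | e
      · right
        rw [e]
      · left
        rw [e]
  inv := by
    rintro γ hγ q (hq | ⟨g, hg, hq⟩)
    · exact Or.inl (S.inv γ hγ q hq)
    · right
      refine ⟨γ * g, Γ.mul_mem hγ hg, ?_⟩
      rcases hq with e | e
      · left
        rw [e]
        simp only [ga, mul_smul]
      · right
        rw [e]
        simp only [ga, mul_smul]
  closed := by
    rintro q (hq | ⟨g, hg, hq⟩)
    · exact S.closed q hq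
    · rcases hq with e | e
      · rw [e]
        exact CLC_closed hs.1 hg
      · rw [e]
        exact CLC_closed (CLC_closed_sw hs.1) hg
  unlinked := by
    rintro a (ha | ha) b (hb | hb)
    · exact S.unlinked a ha b hb
    · intro h
      exact CLC_orb_linked hBD2 hBD12 S hp hb ha ((hBD12.2.2.2.2.2.2.2.2.2.1 _ _ _ _).mp h)
    · exact CLC_orb_linked hBD2 hBD12 S hp ha hb
    · exact CLC_orb_orb hBD2 hBD12 hs.2 ha hb
  finite := by
    classical
    obtain ⟨s, hs'⟩ := S.finite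
    refine ⟨insert p (insert (sw p) s), ?_⟩
    rintro q (hq | ⟨g, hg, hq⟩)
    · obtain ⟨γ, hγ, h⟩ := hs' q hq
      exact ⟨γ, hγ, Finset.mem_insert_of_mem (Finset.mem_insert_of_mem h)⟩
    · refine ⟨g⁻¹, Γ.inv_mem hg, ?_⟩
      rcases hq with e | e
      · rw [e]
        simp
      · rw [e]
        simp

theorem CLC (hBD2 : BD2_stmt) (hBD12 : BD12_stmt) (hCLB : CLB_stmt) : CLC_stmt := by
  classical
  intro Γ hΓ S₀
  obtain ⟨N, hN⟩ := hCLB Γ hΓ
  by_contra hcon
  push Not at hcon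
  have key : ∀ n : ℕ, ∃ (S : LeafSystem Γ) (t : Finset (Bd × Bd)), S₀.L ⊆ S.L ∧
      (∀ p ∈ t, p ∈ S.L) ∧
      (∀ p ∈ t, ∀ q ∈ t, p ≠ q → ∀ γ ∈ Γ, ga γ p ≠ q ∧ ga γ p ≠ sw q) ∧ t.card = n := by
    intro n
    induction n with
    | zero => exact ⟨S₀, ∅, subset_rfl, by simp, by simp, rfl⟩
    | succ n ih =>
      obtain ⟨S, t, h0, h1, h2, h3⟩ := ih
      have hnm := hcon S h0
      unfold LeafSystem.IsMax at hnm
      push Not at hnm
      obtain ⟨p, hs, hp, hpS⟩ := hnm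
      have hpt : p ∉ t := fun h => hpS (h1 p h)
      have hself : p ∈ (CLC_add hBD2 hBD12 S p hs hp).L :=
        Or.inr ⟨1, Γ.one_mem, Or.inl (by simp [ga])⟩
      refine ⟨CLC_add hBD2 hBD12 S p hs hp, insert p t, fun q hq => Or.inl (h0 hq), ?_, ?_, ?_⟩
      · intro q hq
        rcases Finset.mem_insert.mp hq with e | e
        · rw [e]
          exact hself
        · exact Or.inl (h1 q e)
      · intro a ha b hb hab γ hγ
        rcases Finset.mem_insert.mp ha with ea | ea <;> rcases Finset.mem_insert.mp hb with eb | eb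
        · exact absurd (ea.trans eb.symm) hab
        · -- a = p, b in t
          subst ea
          constructor
          · intro h
            apply hpS
            have := S.inv γ⁻¹ (Γ.inv_mem hγ) b (h1 b eb)
            rw [← h] at this
            simpa [ga] using this
          · intro h
            apply hpS
            have := S.inv γ⁻¹ (Γ.inv_mem hγ) (sw b) (S.swap b (h1 b eb))
            rw [← h] at this
            simpa [ga] using this
        · subst eb
          constructor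
          · intro h
            apply hpS
            rw [← h]
            exact S.inv γ hγ a (h1 a ea)
          · intro h
            apply hpS
            have := S.swap _ (S.inv γ hγ a (h1 a ea))
            have h' : (γ • a.1, γ • a.2) = sw b := h
            rw [h'] at this
            exact this
        · exact h2 a ea b eb hab γ hγ
      · rw [Finset.card_insert_of_notMem hpt, h3]
  obtain ⟨S, t, -, h1, h2, h3⟩ := key (N + 1)
  have := hN S t h1 h2
  omega

end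

end AdSBend
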