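import Pool.Agent.helper69.AD.GS3

open scoped MatrixGroups LinearAlgebra.Projectivization
open Matrix UpperHalfPlane

namespace AdSBend

noncomputable section

theorem TW1_cosh {t : ℝ} (ht : 2 < t) :
    0 < Real.log ((t + Real.sqrt (t ^ 2 - 4)) / 2) ∧
    t = 2 * Real.cosh (Real.log ((t + Real.sqrt (t ^ 2 - 4)) / 2)) := by
  have h4 : 0 < t ^ 2 - 4 := by nlinarith
  have hs : 0 < Real.sqrt (t ^ 2 - 4) := Real.sqrt_pos.mpr h4
  have hsq : Real.sqrt (t ^ 2 - 4) ^ 2 = t ^ 2 - 4 := Real.sq_sqrt h4.le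
  have hl : 1 < (t + Real.sqrt (t ^ 2 - 4)) / 2 := by linarith
  refine ⟨Real.log_pos hl, ?_⟩
  rw [Real.cosh_log (by linarith)]
  have hne : t + Real.sqrt (t ^ 2 - 4) ≠ 0 := by linarith
  field_simp
  nlinarith

theorem TW1_len {g : SL(2, ℝ)} (h : 2 < |trc g|) :
    0 < len g ∧ |trc g| = 2 * Real.cosh (len g / 2) := by
  obtain ⟨h1, h2⟩ := TW1_cosh h
  have e : len g / 2 = Real.log ((|trc g| + Real.sqrt (|trc g| ^ 2 - 4)) / 2) := by
    unfold len
    ring
  refine ⟨?_, ?_⟩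
  · unfold len
    linarith
  · rw [e]
    exact h2

theorem TW1_sinh {g : SL(2, ℝ)} (h : 2 < |trc g|) : 0 < Real.sinh (len g / 2) := by
  have := (TW1_len h).1
  exact Real.sinh_pos_iff.mpr (by linarith)

theorem TW1_trc_neg (g : SL(2, ℝ)) : trc (-g) = - trc g := by
  unfold trc
  simp [Matrix.SpecialLinearGroup.coe_neg]
  ring

theorem TW1_trc_pos (g : SL(2, ℝ)) : trc (pos g) = |trc g| := by
  unfold pos
  split_ifs with h
  · rw [abs_of_nonneg h]
  · push Not at h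
    rw [TW1_trc_neg, abs_of_neg h]

theorem TW1_pos {g : SL(2, ℝ)} (h : 2 < |trc g|) : (pos g).1 =
    Real.cosh (len g / 2) • (1 : Matrix (Fin 2) (Fin 2) ℝ) + Real.sinh (len g / 2) • axis g := by
  have h1 := (TW1_len h).2
  have h2 := (TW1_sinh h).ne'
  unfold axis
  rw [smul_smul, mul_inv_cancel₀ h2, one_smul]
  have : |trc g| / 2 = Real.cosh (len g / 2) := by rw [h1]; ring
  rw [this]
  abel

theorem TW1_det2 (g : SL(2, ℝ)) : g.1 0 0 * g.1 1 1 - g.1 0 1 * g.1 1 0 = 1 := by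
  have := g.2
  rw [Matrix.det_fin_two] at this
  exact this

theorem TW1_axis_entries (g : SL(2, ℝ)) (i j : Fin 2) : axis g i j =
    (Real.sinh (len g / 2))⁻¹ * ((pos g).1 i j - (|trc g| / 2) * (1 : Matrix (Fin 2) (Fin 2) ℝ) i j) := by
  unfold axis
  simp [Matrix.smul_apply, Matrix.sub_apply]

theorem TW1_trace (g : SL(2, ℝ)) : (axis g).trace = 0 := by
  rw [Matrix.trace_fin_two, TW1_axis_entries, TW1_axis_entries]
  have h := TW1_trc_pos g
  unfold trc at h
  unfold trc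
  simp only [Matrix.one_apply_eq, mul_one]
  rw [← mul_add]
  have : (pos g).1 0 0 - |g.1 0 0 + g.1 1 1| / 2 + ((pos g).1 1 1 - |g.1 0 0 + g.1 1 1| / 2) = 0 := by
    linarith
  rw [this, mul_zero]

theorem TW1_det {g : SL(2, ℝ)} (h : 2 < |trc g|) : (axis g).det = -1 := by
  rw [Matrix.det_fin_two]
  simp only [TW1_axis_entries]
  have hd := TW1_det2 (pos g)
  have ht := TW1_trc_pos g
  unfold trc at ht
  have h1 := (TW1_len h).2
  have hs := (TW1_sinh h).ne'
  have hcs := Real.cosh_sq (len g / 2)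
  set c := Real.cosh (len g / 2)
  set s := Real.sinh (len g / 2)
  unfold trc at h1
  unfold trc
  rw [h1] at ht ⊢
  simp only [Matrix.one_apply_eq, Matrix.one_apply_ne (by decide : (0 : Fin 2) ≠ 1),
    Matrix.one_apply_ne (by decide : (1 : Fin 2) ≠ 0), mul_one, mul_zero, sub_zero]
  set a := (pos g).1 0 0
  set b := (pos g).1 0 1
  set e := (pos g).1 1 0
  set f := (pos g).1 1 1
  field_simp
  have hf : f = 2 * c - a := by linarith
  rw [hf] at hd ⊢
  nlinarith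

theorem TW1_sq {g : SL(2, ℝ)} (h : 2 < |trc g|) : axis g * axis g = 1 := by
  have ht := TW1_trace g
  have hd := TW1_det h
  rw [Matrix.trace_fin_two] at ht
  rw [Matrix.det_fin_two] at hd
  ext i j
  rw [Matrix.mul_apply, Fin.sum_univ_two]
  fin_cases i <;> fin_cases j <;> simp
  · linear_combination (axis g 0 0) * ht - hd
  · linear_combination (axis g 0 1) * ht
  · linear_combination (axis g 1 0) * ht
  · linear_combination (axis g 1 1) * ht - hd

theorem TW1_detS {g : SL(2, ℝ)} (h : 2 < |trc g|) (s : ℝ) :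
    (Real.cosh (s / 2) • (1 : Matrix (Fin 2) (Fin 2) ℝ) + Real.sinh (s / 2) • axis g).det = 1 := by
  have ht := TW1_trace g
  have hd := TW1_det h
  rw [Matrix.trace_fin_two] at ht
  rw [Matrix.det_fin_two] at hd ⊢
  have hcs := Real.cosh_sq (s / 2)
  simp only [Matrix.add_apply, Matrix.smul_apply, Matrix.one_apply_eq,
    Matrix.one_apply_ne (by decide : (0 : Fin 2) ≠ 1),
    Matrix.one_apply_ne (by decide : (1 : Fin 2) ≠ 0), smul_eq_mul, mul_one, mul_zero, zero_add]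
  have h11 : axis g 1 1 = - axis g 0 0 := by linarith
  rw [h11] at hd ⊢
  nlinarith

theorem TW1_twS {g : SL(2, ℝ)} (h : 2 < |trc g|) (s : ℝ) : (twS g s).1 =
    Real.cosh (s / 2) • (1 : Matrix (Fin 2) (Fin 2) ℝ) + Real.sinh (s / 2) • axis g := by
  unfold twS
  rw [dif_pos (TW1_detS h s)]

theorem TW1_trc_conj (g h : SL(2, ℝ)) : trc (h * g * h⁻¹) = trc g := by
  have e : ∀ x : SL(2, ℝ), trc x = x.1.trace := fun x => by
    unfold trc
    rw [Matrix.trace_fin_two]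
  rw [e, e]
  have : (h * g * h⁻¹).1 = h.1 * g.1 * (h⁻¹).1 := by
    simp [Matrix.SpecialLinearGroup.coe_mul]
  rw [this, Matrix.trace_mul_cycle]
  have h2 : (h⁻¹).1 * h.1 = 1 := by
    rw [← Matrix.SpecialLinearGroup.coe_mul, inv_mul_cancel, Matrix.SpecialLinearGroup.coe_one]
  rw [h2, one_mul]

theorem TW1_pos_conj (g h : SL(2, ℝ)) : pos (h * g * h⁻¹) = h * pos g * h⁻¹ := by
  unfold pos
  rw [TW1_trc_conj]
  split_ifs
  · rfl
  · rw [mul_neg, neg_mul]

theorem TW1_inv_mul (h : SL(2, ℝ)) : h.1 * (h⁻¹).1 = 1 := by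
  rw [← Matrix.SpecialLinearGroup.coe_mul, mul_inv_cancel, Matrix.SpecialLinearGroup.coe_one]

theorem TW1_axis_conj (g h : SL(2, ℝ)) : axis (h * g * h⁻¹) = h.1 * axis g * (h⁻¹).1 := by
  unfold axis
  have hl : len (h * g * h⁻¹) = len g := by
    unfold len
    rw [TW1_trc_conj]
  rw [hl, TW1_trc_conj, TW1_pos_conj]
  have e1 : (h * pos g * h⁻¹).1 = h.1 * (pos g).1 * (h⁻¹).1 := by
    simp [Matrix.SpecialLinearGroup.coe_mul]
  rw [e1, Matrix.mul_smul, Matrix.smul_mul, Matrix.mul_sub, Matrix.sub_mul, Matrix.mul_smul,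
    Matrix.smul_mul, Matrix.mul_one, TW1_inv_mul]

theorem TW1_inv_coe (g : SL(2, ℝ)) (i j : Fin 2) : (g⁻¹).1 i j =
    (trc g) * (1 : Matrix (Fin 2) (Fin 2) ℝ) i j - g.1 i j := by
  rw [Matrix.SpecialLinearGroup.coe_inv, Matrix.adjugate_fin_two]
  unfold trc
  fin_cases i <;> fin_cases j <;> simp

theorem TW1_trc_inv (g : SL(2, ℝ)) : trc g⁻¹ = trc g := by
  have h0 := TW1_inv_coe g 0 0
  have h1 := TW1_inv_coe g 1 1
  show (g⁻¹).1 0 0 + (g⁻¹).1 1 1 = trc g
  rw [h0, h1]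
  unfold trc
  simp
  ring

theorem TW1_pos_inv {g : SL(2, ℝ)} : pos g⁻¹ = (pos g)⁻¹ := by
  unfold pos
  rw [TW1_trc_inv]
  split_ifs
  · rfl
  · rw [inv_neg]

theorem TW1_axis_inv (g : SL(2, ℝ)) : axis g⁻¹ = - axis g := by
  ext i j
  rw [Matrix.neg_apply, TW1_axis_entries, TW1_axis_entries]
  have hl : len g⁻¹ = len g := by
    unfold len
    rw [TW1_trc_inv]
  rw [hl, TW1_trc_inv, TW1_pos_inv, TW1_inv_coe, TW1_trc_pos]
  ring

theorem TW1_pos_neg {g : SL(2, ℝ)} (h : 2 < |trc g|) : pos (-g) = pos g := by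
  unfold pos
  rw [TW1_trc_neg]
  rcases lt_trichotomy (trc g) 0 with h0 | h0 | h0
  · rw [if_pos (by linarith), if_neg (by linarith)]
  · rw [h0] at h
    simp at h
    linarith
  · rw [if_neg (by linarith), if_pos (by linarith), neg_neg]

theorem TW1_axis_neg {g : SL(2, ℝ)} (h : 2 < |trc g|) : axis (-g) = axis g := by
  unfold axis
  have hl : len (-g) = len g := by
    unfold len
    rw [TW1_trc_neg, abs_neg]
  rw [hl, TW1_trc_neg, abs_neg, TW1_pos_neg h]

theorem TW1_Dm (s : ℝ) : (Dm s).1 =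
    Real.cosh (s / 2) • (1 : Matrix (Fin 2) (Fin 2) ℝ) + Real.sinh (s / 2) • hM := by
  unfold Dm hM
  ext i j
  fin_cases i <;> fin_cases j <;> simp [Real.cosh_eq, Real.sinh_eq] <;> ring

theorem TW1_add {g : SL(2, ℝ)} (h : 2 < |trc g|) (s t : ℝ) :
    twS g (s + t) = twS g s * twS g t := by
  apply Subtype.ext
  rw [Matrix.SpecialLinearGroup.coe_mul, TW1_twS h, TW1_twS h, TW1_twS h]
  have e : (s + t) / 2 = s / 2 + t / 2 := by ring
  rw [e, Real.cosh_add, Real.sinh_add]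
  rw [Matrix.add_mul, Matrix.mul_add, Matrix.mul_add]
  simp only [Matrix.smul_mul, Matrix.mul_smul, Matrix.one_mul, Matrix.mul_one, TW1_sq h,
    smul_smul]
  module

theorem TW1_zero {g : SL(2, ℝ)} (h : 2 < |trc g|) : twS g 0 = 1 := by
  apply Subtype.ext
  rw [TW1_twS h]
  simp

theorem TW1 (hBD8 : BD8_stmt) : TW1_stmt := by
  obtain ⟨-, b2, -, b4, -⟩ := hBD8
  refine ⟨?_, ?_, ?_, ?_⟩
  · intro g F p s hg hF
    have h2 : 2 < |trc g| := (b4 g).mpr ⟨p, hg⟩
    obtain ⟨hpos, hlen⟩ := b2 g F p hg hF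
    have hax : axis g = F.1 * hM * (F⁻¹).1 := by
      have e1 := TW1_pos h2
      have e2 : (pos g).1 = F.1 * (Dm (len g)).1 * (F⁻¹).1 := by
        rw [hpos]
        simp [Matrix.SpecialLinearGroup.coe_mul]
      rw [TW1_Dm, Matrix.mul_add, Matrix.add_mul, Matrix.mul_smul, Matrix.smul_mul,
        Matrix.mul_one, TW1_inv_mul, Matrix.mul_smul, Matrix.smul_mul] at e2
      rw [e1] at e2
      have e3 := add_left_cancel e2
      exact (smul_right_injective _ (TW1_sinh h2).ne') e3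
    refine ⟨?_, hax, TW1_twS h2 s⟩
    apply Subtype.ext
    rw [TW1_twS h2, hax]
    have : (F * Dm s * F⁻¹).1 = F.1 * (Dm s).1 * (F⁻¹).1 := by
      simp [Matrix.SpecialLinearGroup.coe_mul]
    rw [this, TW1_Dm, Matrix.mul_add, Matrix.add_mul, Matrix.mul_smul, Matrix.smul_mul,
      Matrix.mul_one, TW1_inv_mul, Matrix.mul_smul, Matrix.smul_mul]
  · intro g h s hg
    have hg' : 2 < |trc (h * g * h⁻¹)| := by rwa [TW1_trc_conj]
    refine ⟨?_, TW1_axis_conj g h⟩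
    apply Subtype.ext
    rw [TW1_twS hg', TW1_axis_conj]
    have : (h * twS g s * h⁻¹).1 = h.1 * (twS g s).1 * (h⁻¹).1 := by
      simp [Matrix.SpecialLinearGroup.coe_mul]
    rw [this, TW1_twS hg, Matrix.mul_add, Matrix.add_mul, Matrix.mul_smul, Matrix.smul_mul,
      Matrix.mul_one, TW1_inv_mul, Matrix.mul_smul, Matrix.smul_mul]
  · intro g s t hg
    have hgi : 2 < |trc g⁻¹| := by rwa [TW1_trc_inv]
    have hgn : 2 < |trc (-g)| := by rwa [TW1_trc_neg, abs_neg]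
    refine ⟨?_, TW1_axis_inv g, ?_, TW1_axis_neg hg, TW1_add hg s t, TW1_zero hg, ?_⟩
    · apply Subtype.ext
      rw [TW1_twS hgi, TW1_twS hg, TW1_axis_inv]
      have e : -s / 2 = -(s / 2) := by ring
      rw [e, Real.cosh_neg, Real.sinh_neg]
      simp
    · apply Subtype.ext
      rw [TW1_twS hgn, TW1_twS hg, TW1_axis_neg hg]
    · rw [inv_eq_iff_mul_eq_one, ← TW1_add hg, add_neg_cancel, TW1_zero hg]
  · intro g hg
    exact ⟨TW1_pos hg, TW1_trace g, TW1_det hg, (TW1_len hg).1, (TW1_len hg).2⟩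

end

end AdSBend
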