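import Pool.Agent.helper69.AD.GS3
import Pool.Agent.helper25.AG.TW1

open scoped MatrixGroups LinearAlgebra.Projectivization
open Matrix UpperHalfPlane

namespace AdSBend

noncomputable section

open LeafSystem

def QC1c_stmt : Prop := ∀ (Γ : Subgroup SL(2, ℝ)), IsClosedSurfaceGroup Γ → ∀ S : LeafSystem Γ,
  S.IsPants → S.L.Nonempty →
  ∀ (ω : Bd × Bd → ℝ) (f f' : Bd ≃ Bd) (r r' : SL(2, ℝ) → SL(2, ℝ)) (B : ℍ → SL(2, ℝ)),
    IsConjBy Γ f r → IsConjBy Γ f' r' → S.IsQuake ω f f' r B →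
    (∀ p ∈ S.L, len (r' (gen Γ p)) = len (r (gen Γ p))) ∧
    (∀ p u F z, S.CoPl p u → S.Near p z → IsSeamFrame (r (gen Γ p)) (r (gen Γ u)) F →
      IsSeamFrame (r' (gen Γ p)) (r' (gen Γ u)) (B z * F)) ∧
    (∀ p ∈ S.L, ∀ z z' F G t, S.Near p z → S.Near (sw p) z' → IsFrame F (f p.1, f p.2) →
      PEq F (G * Rm * Dm t) → PEq (B z * F) ((B z' * G) * Rm * Dm (t + ω p)))

theorem QC1_Dm_add (s t : ℝ) : Dm (s + t) = Dm s * Dm t := by
  apply Subtype.ext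
  rw [Matrix.SpecialLinearGroup.coe_mul]
  unfold Dm
  ext i j
  rw [Matrix.mul_apply, Fin.sum_univ_two]
  fin_cases i <;> fin_cases j <;> simp [← Real.exp_add] <;> ring_nf

theorem QC1_Dm_zero : Dm 0 = 1 := by
  apply Subtype.ext
  unfold Dm
  ext i j
  fin_cases i <;> fin_cases j <;> simp

theorem QC1_trc {a h g : SL(2, ℝ)} (hP : PEq a (h * g * h⁻¹)) : |trc a| = |trc g| := by
  rcases hP with e | e
  · rw [e, TW1_trc_conj]
  · rw [e, TW1_trc_neg, abs_neg, TW1_trc_conj]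

theorem QC1_len {a h g : SL(2, ℝ)} (hP : PEq a (h * g * h⁻¹)) : len a = len g := by
  unfold len
  rw [QC1_trc hP]

theorem QC1_pos {a h g : SL(2, ℝ)} (hP : PEq a (h * g * h⁻¹)) (h2 : 2 < |trc g|) :
    pos a = h * pos g * h⁻¹ := by
  rcases hP with e | e
  · rw [e, TW1_pos_conj]
  · have : 2 < |trc (h * g * h⁻¹)| := by rwa [TW1_trc_conj]
    rw [e, TW1_pos_neg this, TW1_pos_conj]

theorem QC1 (hBD8 : BD8_stmt) (hBD11 : BD11_stmt) (hGM1 : GM1_stmt) (hPN3 : PN3_stmt)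
    (hPN4 : PN4_stmt) (hPN5 : PN5_stmt) (hTW1 : TW1_stmt) (hBR5 : BR5_stmt) : QC1c_stmt := by
  intro Γ hΓ S hS hne ω f f' r r' B hf hf' hB
  have hcop : ∀ p ∈ S.L, ∃ q, S.CoPl p q := by
    intro p hp
    obtain ⟨q, s, hx⟩ := hS.hex p hp
    exact ⟨q, hx.1⟩
  have hbr := hBR5 Γ hΓ S hcop hne ω f f' r r' B hf hf' hB
  have hgen : ∀ p ∈ S.L, IsGen Γ p (gen Γ p) := fun p hp => hGM1 Γ hΓ p (S.closed p hp)
  have hatt : ∀ p ∈ S.L, Attracts (r (gen Γ p)) (f p.1, f p.2) := fun p hp =>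
    (hBD11 Γ f r hf).2.2.2.2.1 (gen Γ p) (hgen p hp).1 p (hgen p hp).2.1
  have h2 : ∀ p ∈ S.L, 2 < |trc (r (gen Γ p))| := fun p hp =>
    (hBD8.2.2.2.1 _).mpr ⟨_, hatt p hp⟩
  have hA : ∀ p ∈ S.L, ∀ z, S.Near p z →
      PEq (r' (gen Γ p)) (B z * r (gen Γ p) * (B z)⁻¹) := by
    intro p hp z hz
    have h3 := hbr (gen Γ p) (hgen p hp).1 z hz.1
    have h4 : S.Near p (gen Γ p • z) := by
      have := (hPN5 Γ S).2.2.2.2.2.1 (gen Γ p) (hgen p hp).1 p z hz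
      have e1 : gen Γ p • p.1 = p.1 := (hgen p hp).2.1.2.1
      have e2 : gen Γ p • p.2 = p.2 := (hgen p hp).2.1.2.2.1
      rw [e1, e2] at this
      exact this
    have h5 : S.SamePl z (gen Γ p • z) := (hPN3 Γ hΓ S p hp).2.2.1 z _ hz h4
    have h6 : B z = B (gen Γ p • z) := hB.1.1 z _ hz.1 h4.1 h5
    rw [← h6] at h3
    exact h3
  refine ⟨?_, ?_, ?_⟩
  · intro p hp
    obtain ⟨z, hz⟩ := (hPN3 Γ hΓ S p hp).1
    exact QC1_len (hA p hp z hz)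
  · intro p u F z hpu hz hF
    obtain ⟨d, hd, e1, e2⟩ := hF
    have hu : S.Near u z := (hPN4 Γ hΓ S p hpu.1 u hpu.2.1 z hz).mpr (Or.inr hpu)
    have hPp := hA p hpu.1 z hz
    have hPu := hA u hpu.2.1 z hu
    refine ⟨d, hd, ?_, ?_⟩
    · rw [QC1_pos hPp (h2 p hpu.1), QC1_len hPp, e1]
      group
    · rw [QC1_pos hPu (h2 u hpu.2.1), QC1_len hPu, e2]
      group
  · intro p hp z z' F G t hz hz' hF hPE
    have hac : S.Across p z z' := (hPN3 Γ hΓ S p hp).2.1 z z' hz hz'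
    have hjump : B z' = B z * twS (r (gen Γ p)) (-ω p) := hB.1.2 z z' p hz.1 hz'.1 hac
    have htw : twS (r (gen Γ p)) (-ω p) = F * Dm (-ω p) * F⁻¹ :=
      (hTW1.1 (r (gen Γ p)) F (f p.1, f p.2) (-ω p) (hatt p hp) hF).1
    have hDD : Dm (-ω p) * Dm (ω p) = 1 := by
      rw [← QC1_Dm_add, neg_add_cancel, QC1_Dm_zero]
    rcases hPE with e | e
    · left
      have e3 : B z' * G * Rm * Dm (t + ω p) =
          B z * F * Dm (-ω p) * (F⁻¹ * (G * Rm * Dm t)) * Dm (ω p) := by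
        rw [hjump, htw, QC1_Dm_add]
        group
      rw [e3, ← e, inv_mul_cancel, mul_one, mul_assoc (B z * F), hDD, mul_one]
    · right
      have e3 : B z' * G * Rm * Dm (t + ω p) =
          B z * F * Dm (-ω p) * (F⁻¹ * (G * Rm * Dm t)) * Dm (ω p) := by
        rw [hjump, htw, QC1_Dm_add]
        group
      have e4 : G * Rm * Dm t = -F := by rw [e, neg_neg]
      rw [e3, e4, mul_neg, inv_mul_cancel, mul_neg, mul_one, neg_mul, mul_assoc (B z * F), hDD,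
        mul_one, neg_neg]

end

end AdSBend
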