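import Pool.Agent.helper69.AD.GS5
import Pool.Agent.helper25.AG.QC1

open scoped MatrixGroups LinearAlgebra.Projectivization
open Matrix UpperHalfPlane

namespace AdSBend

theorem QC2 (hBD8 : BD8_stmt) (hBD11 : BD11_stmt) (hGM1 : GM1_stmt) (hPN3 : PN3_stmt)
    (hPN4 : PN4_stmt) (hPN5 : PN5_stmt) (hTW1 : TW1_stmt) (hBR5 : BR5_stmt) : QC2_stmt :=
  QC1 hBD8 hBD11 hGM1 hPN3 hPN4 hPN5 hTW1 hBR5

end AdSBend
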